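import Pool.Agent.Q54.TK.Gen

/-!
# MP_c3ace4_co: resilient `k`-graphs with large covering number, and a general bound

Part 1: for every `k ≥ 4` there are `ζ > 0` and `s0` such that for `s ≥ s0` every `(k-1)`-resilient
`k`-graph with matching number `s` and covering number at least `(k - ζ) s` has at most `C(k s + k - 1, k)`
edges. Part 2: for every `k ≥ 4` and `ε > 0` and large `s` every `(k-1)`-resilient `k`-graph with matching
number `s` has at most `(1 + ε) (k s)^k / k` edges.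
-/

set_option autoImplicit false

namespace Pool.Agent.Results.MP_c3ace4_co.LargeCoveringNumber

/-- the matching number of `F` is `s` -/
def MatchingNumberIs {n : ℕ} (F : Finset (Finset (Fin n))) (s : ℕ) : Prop :=
  IsGreatest {m : ℕ | ∃ M : Finset (Finset (Fin n)),
    M ⊆ F ∧ (∀ e ∈ M, ∀ f ∈ M, e ≠ f → Disjoint e f) ∧ M.card = m} s

/-- `F` is a `k`-graph on `Fin n` with matching number `s` which is `(k-1)`-resilient: for every vertex
set `T` with at most `k - 1` elements the edges avoiding `T` still have matching number `s` -/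
def ResilientGraph {n : ℕ} (k s : ℕ) (F : Finset (Finset (Fin n))) : Prop :=
  (∀ e ∈ F, e.card = k) ∧ MatchingNumberIs F s ∧
    ∀ T : Finset (Fin n), T.card ≤ k - 1 → MatchingNumberIs (F.filter (fun e => Disjoint e T)) s

/-- every vertex set which meets all edges has at least `x` elements -/
def CoveringNumberGe {n : ℕ} (F : Finset (Finset (Fin n))) (x : ℝ) : Prop :=
  ∀ Y : Finset (Fin n), (∀ e ∈ F, (e ∩ Y).Nonempty) → x ≤ Y.card

open Pool.Agent.Q54.TK

theorem result :
    (∀ k : ℕ, 4 ≤ k → ∃ ζ : ℝ, 0 < ζ ∧ ∃ s0 : ℕ, ∀ s : ℕ, s0 ≤ s →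
      ∀ (n : ℕ) (F : Finset (Finset (Fin n))), ResilientGraph k s F →
        CoveringNumberGe F (((k : ℝ) - ζ) * s) → F.card ≤ (k * s + k - 1).choose k) ∧
    (∀ k : ℕ, 4 ≤ k → ∀ ε : ℝ, 0 < ε → ∃ s0 : ℕ, ∀ s : ℕ, s0 ≤ s →
      ∀ (n : ℕ) (F : Finset (Finset (Fin n))), ResilientGraph k s F →
        (F.card : ℝ) ≤ (1 + ε) * ((k : ℝ) * s) ^ k / k) := by
  refine ⟨fun k hk => ?_, fun k hk ε hε => ?_⟩
  · obtain ⟨ζ, hζ, s0, H⟩ := t_FIN k (by omega)
    refine ⟨ζ, hζ, s0 + 1, fun s hs n F hF hcov => ?_⟩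
    have hyp : Hyp k s F := hyp_of k s (by omega) (by omega) F hF.1 (fun T hT => hF.2.2 T hT)
    refine H s (by omega) (Fin n) F hyp (t_COV (Fin n) F k s ζ (by omega) hF.1 ?_)
    intro Y hY
    refine hcov Y fun e he => ?_
    rw [Finset.nonempty_iff_ne_empty]
    intro h0
    exact hY e he (Finset.disjoint_iff_inter_eq_empty.mpr h0)
  · obtain ⟨s0, H⟩ := gen k (by omega) ε hε
    refine ⟨s0 + 1, fun s hs n F hF => ?_⟩
    have hyp : Hyp k s F := hyp_of k s (by omega) (by omega) F hF.1 (fun T hT => hF.2.2 T hT)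
    have h1 := H s (by omega) (Fin n) F hyp
    have hk0 : (0 : ℝ) < k := by exact_mod_cast (by omega : 0 < k)
    have h2 : (s : ℝ) * qq k s = ((k : ℝ) * s) ^ k / k := by
      obtain ⟨m, rfl⟩ : ∃ m, k = m + 1 := ⟨k - 1, by omega⟩
      unfold qq
      rw [Nat.add_sub_cancel, pow_succ, eq_div_iff hk0.ne']
      ring
    rw [h2] at h1
    calc (F.card : ℝ) ≤ (1 + ε) * (((k : ℝ) * s) ^ k / k) := h1
      _ = (1 + ε) * ((k : ℝ) * s) ^ k / k := by ring

end Pool.Agent.Results.MP_c3ace4_co.LargeCoveringNumber
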